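import Mathlib

namespace Pool.Agent.Results.MP_cda11a_an.Counter

open Set Filter Topology OnePoint

/-- `(x, y) ∈ G^n`. -/
def Pow {X : Type} (G : Set (X × X)) (n : ℕ) (x y : X) : Prop :=
  ∃ z : ℕ → X, z 0 = x ∧ z n = y ∧ ∀ k < n, (z k, z (k + 1)) ∈ G

/-- The `(1,2)`-shadowing property; entourages are the neighbourhoods of the diagonal. -/
def Shadow12 {X : Type} [TopologicalSpace X] (G : Set (X × X)) : Prop :=
  ∀ U ∈ 𝓝ˢ (diagonal X), ∃ V ∈ 𝓝ˢ (diagonal X), ∀ x : ℕ → X,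
    (∀ m y, (x m, y) ∈ G → (y, x (m + 1)) ∈ V) →
      ∃ y : ℕ → X, (∀ m, (y m, y (m + 1)) ∈ G) ∧ ∀ m, (y m, x m) ∈ U

abbrev Y := OnePoint ℤ

def hs : ℤ ≃ₜ ℤ := Homeomorph.addRight 1
def hn : ℤ ≃ₜ ℤ := Homeomorph.neg ℤ

noncomputable def s : Y ≃ₜ Y := hs.onePointCongr
noncomputable def ng : Y ≃ₜ Y := hn.onePointCongr

lemma s_coe (k : ℤ) : s (k : Y) = ((k + 1 : ℤ) : Y) := rfl
lemma ng_coe (k : ℤ) : ng (k : Y) = ((-k : ℤ) : Y) := rfl
lemma s_inf : s ∞ = ∞ := rfl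
lemma ng_inf : ng ∞ = ∞ := rfl

def P : Set Y := ((fun k : ℤ => (k : Y)) '' {k | k < 0})ᶜ

lemma P_closed : IsClosed P :=
  (isOpenEmbedding_coe.isOpenMap _ (isOpen_discrete _)).isClosed_compl

lemma mem_P (k : ℤ) : (k : Y) ∈ P ↔ 0 ≤ k := by simp [P]

lemma inf_P : ∞ ∈ P := by simp [P]

def G : Set ((Y × Y) × (Y × Y)) :=
  {p | p.2.2 = ng p.1.2 ∧ ((p.1.2 ∈ P ∧ p.2.1 = s p.1.1) ∨ (p.2.2 ∈ P ∧ p.1.1 = s p.2.1))}

lemma G_closed : IsClosed G := by
  refine IsClosed.inter (isClosed_eq (by fun_prop) (by fun_prop)) (IsClosed.union ?_ ?_)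
  · exact IsClosed.inter (P_closed.preimage (by fun_prop)) (isClosed_eq (by fun_prop) (by fun_prop))
  · exact IsClosed.inter (P_closed.preimage (by fun_prop)) (isClosed_eq (by fun_prop) (by fun_prop))

lemma ng_ng (c : Y) : ng (ng c) = c := by
  induction c using OnePoint.rec with
  | infty => rfl
  | coe k => simp [ng_coe]

lemma P_or (c : Y) : c ∈ P ∨ ng c ∈ P := by
  induction c using OnePoint.rec with
  | infty => exact Or.inl inf_P
  | coe k => rw [ng_coe, mem_P, mem_P]; omega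

lemma two (x : Y × Y) : Pow G 2 x x := by
  obtain ⟨a, c⟩ := x
  rcases P_or c with h | h
  · refine ⟨fun k => if k = 1 then (s a, ng c) else (a, c), by simp, by simp, fun k hk => ?_⟩
    interval_cases k <;> simp [G, h, ng_ng]
  · refine ⟨fun k => if k = 1 then (s.symm a, ng c) else (a, c), by simp, by simp, fun k hk => ?_⟩
    interval_cases k <;> simp [G, h, ng_ng]

lemma tend {f : ℕ → ℤ} (hf : Tendsto (fun n => |f n|) atTop atTop) :
    Tendsto (fun n => (f n : Y)) atTop (𝓝 ∞) := by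
  refine tendsto_coe_infty.comp ?_
  rw [coclosedCompact_eq_cocompact, cocompact_eq_cofinite]
  intro A hA
  rw [mem_map]
  obtain ⟨M, hM⟩ := (Set.Finite.image (fun k : ℤ => |k|) hA).bddAbove
  filter_upwards [hf.eventually_gt_atTop M] with n hn
  by_contra h
  exact absurd (hM ⟨f n, h, rfl⟩) (not_le.2 hn)

lemma tp : Tendsto (fun n : ℕ => (((n : ℤ) + 1 : ℤ) : Y)) atTop (𝓝 ∞) :=
  tend (tendsto_abs_atTop_atTop.comp (tendsto_atTop_add_const_right _ _ tendsto_natCast_atTop_atTop))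

lemma tn : Tendsto (fun n : ℕ => ((-((n : ℤ) + 1) : ℤ) : Y)) atTop (𝓝 ∞) :=
  ng.continuous.continuousAt.tendsto.comp tp

lemma clopen (k : ℤ) : IsClopen ({(k : Y)} : Set Y) :=
  ⟨isClosed_singleton, by
    simpa using isOpenEmbedding_coe.isOpenMap {k} (isOpen_discrete _)⟩

lemma not_shadow : ¬ Shadow12 G := by
  intro h
  have hU : ∀ k : ℤ, {p : (Y × Y) × (Y × Y) | p.1.1 = k ↔ p.2.1 = k} ∈ 𝓝ˢ (diagonal (Y × Y)) := by
    intro k
    refine IsOpen.mem_nhdsSet ?_ |>.2 ?_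
    · have h1 : IsClopen {p : (Y × Y) × (Y × Y) | p.1.1 = k} := (clopen k).preimage (by fun_prop)
      have h2 : IsClopen {p : (Y × Y) × (Y × Y) | p.2.1 = k} := (clopen k).preimage (by fun_prop)
      convert ((h1.inter h2).union (h1.compl.inter h2.compl)).isOpen using 1
      ext p
      simp only [mem_ofPred_eq, mem_union, mem_inter_iff, mem_compl_iff]
      tauto
    · rintro ⟨a, b⟩ hab
      simp only [mem_diagonal_iff] at hab
      simp [hab]
  obtain ⟨V, hV, hsh⟩ := h _ (inter_mem (hU 0) (inter_mem (hU 1) (hU (-1))))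
  obtain ⟨O, hO, hd, hOV⟩ := mem_nhdsSet_iff_exists.1 hV
  have e1 : ∀ᶠ n : ℕ in atTop, (((((n : ℤ) + 1 + 1 : ℤ) : Y), (∞ : Y)),
      (((-((n : ℤ) + 1) : ℤ) : Y), (∞ : Y))) ∈ O := by
    have : Tendsto (fun n : ℕ => (((n : ℤ) + 1 + 1 : ℤ) : Y)) atTop (𝓝 ∞) :=
      s.continuous.continuousAt.tendsto.comp tp
    exact ((this.prodMk_nhds tendsto_const_nhds).prodMk_nhds
      (tn.prodMk_nhds tendsto_const_nhds)).eventually (hO.mem_nhds (hd rfl))
  obtain ⟨K, hK⟩ := e1.exists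
  have key : ∀ a b : Y, ((a, (∞ : Y)), (b, (∞ : Y))) ∈ O → ∀ᶠ n : ℕ in atTop,
      ((a, ((-((n : ℤ) + 1) : ℤ) : Y)), (b, (((n : ℤ) + 1 : ℤ) : Y))) ∈ O := fun a b hab =>
    ((tendsto_const_nhds.prodMk_nhds tn).prodMk_nhds
      (tendsto_const_nhds.prodMk_nhds tp)).eventually (hO.mem_nhds hab)
  have e2 := (key _ _ hK).and ((eventually_all_finset (Finset.Icc (-((K : ℤ) + 1)) (K + 1))).2
    fun k _ => key (k : Y) k (hd rfl))
  obtain ⟨j, hj1, hj2⟩ := e2.exists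
  let a : ℕ → ℤ := fun m => ((m : ℤ) + (K + 1)) % (2 * K + 3) - (K + 1)
  have hpos : (0 : ℤ) < 2 * K + 3 := by positivity
  have ha : ∀ m, (a (m + 1) = a m + 1 ∧ -((K : ℤ) + 1) ≤ a (m + 1) ∧ a (m + 1) ≤ K + 1) ∨
      (a m = K + 1 ∧ a (m + 1) = -((K : ℤ) + 1)) := by
    intro m
    have h1 := Int.emod_nonneg ((m : ℤ) + (K + 1)) hpos.ne'
    have h2 := Int.emod_lt_of_pos ((m : ℤ) + (K + 1)) hpos
    have h3 : (((m + 1 : ℕ) : ℤ) + (K + 1)) % (2 * K + 3) =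
        (((m : ℤ) + (K + 1)) % (2 * K + 3) + 1) % (2 * K + 3) := by
      rw [Int.emod_add_emod]; congr 1; push_cast; ring
    simp only [a, h3]
    by_cases e : ((m : ℤ) + (K + 1)) % (2 * K + 3) + 1 = 2 * K + 3
    · right; rw [e, Int.emod_self]; omega
    · left; rw [Int.emod_eq_of_lt (by omega) (by omega)]; omega
  have hv : ∀ m : ℕ, a m = if m ≤ K + 1 then (m : ℤ) else if m ≤ 2 * K + 2 then m - (2 * K + 3)
      else a m := by
    intro m
    split_ifs with h1 h2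
    · simp only [a]; rw [Int.emod_eq_of_lt (by omega) (by omega)]; ring
    · simp only [a]
      rw [← Int.sub_emod_right, Int.emod_eq_of_lt (by omega) (by omega)]; ring
    · rfl
  obtain ⟨y, hy, hyU⟩ := hsh (fun m => ((a m : Y), (((j : ℤ) + 1 : ℤ) : Y))) (by
    rintro m ⟨b, c⟩ ⟨h1, h2⟩
    simp only [ng_coe] at h1 h2
    subst h1
    rcases h2 with ⟨-, h2⟩ | ⟨h2, -⟩
    · rw [h2, s_coe]
      apply hOV
      rcases ha m with ⟨q1, q2, q3⟩ | ⟨q1, q2⟩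
      · rw [← q1]; exact hj2 _ (Finset.mem_Icc.2 ⟨q2, q3⟩)
      · rw [q1, q2]; exact hj1
    · rw [mem_P] at h2; omega)
  have claim : ∀ m : ℕ, m ≤ 2 * K + 1 → ∃ k : ℤ, 1 ≤ k ∧ (y (m + 1)).1 = k := by
    intro m
    induction m with
    | zero =>
      intro _
      refine ⟨1, le_rfl, (hyU 1).2.1.2 ?_⟩
      simp only [coe_eq_coe]
      rw [hv, if_pos (by omega)]; simp
    | succ m ih =>
      intro hm
      obtain ⟨k, hk, e⟩ := ih (by omega)
      rcases (hy (m + 1)).2 with ⟨-, h2⟩ | ⟨-, h2⟩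
      · exact ⟨k + 1, by omega, by simpa [e, s_coe] using h2⟩
      · have h3 : (y (m + 1 + 1)).1 = ((k - 1 : ℤ) : Y) := by
          apply s.injective
          rw [s_coe, sub_add_cancel, ← e]; exact h2.symm
        refine ⟨k - 1, ?_, h3⟩
        by_contra hlt
        have h4 := (hyU (m + 1 + 1)).1.1 (by rw [h3]; congr 1; omega)
        simp only [coe_eq_coe] at h4
        rw [hv] at h4
        split_ifs at h4 <;> omega
  obtain ⟨k, hk, e⟩ := claim (2 * K + 1) le_rfl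
  have := (hyU (2 * K + 1 + 1)).2.2.2 (by
    simp only [coe_eq_coe]
    rw [hv]
    split_ifs <;> omega)
  rw [e, coe_eq_coe] at this
  omega

theorem result : ∃ (X : Type) (_ : TopologicalSpace X) (G : Set (X × X)) (n : ℕ),
    Nonempty X ∧ CompactSpace X ∧ T2Space X ∧ TotallyDisconnectedSpace X ∧ G.Nonempty ∧
      IsClosed G ∧ 1 ≤ n ∧ (∀ x, Pow G n x x) ∧ ¬ Shadow12 G :=
  ⟨Y × Y, inferInstance, G, 2, inferInstance, inferInstance, inferInstance, inferInstance,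
    ⟨((∞, ∞), (∞, ∞)), rfl, Or.inl ⟨inf_P, rfl⟩⟩, G_closed, by norm_num, two, not_shadow⟩

end Pool.Agent.Results.MP_cda11a_an.Counter
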